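import Pool.Agent.Helper10.RC.Basic

/-! Packet RC-RepFV of MP_b55b7c_an: the commutant of the right multiplications. -/

open scoped ENNReal NNReal InnerProductSpace ComplexOrder
open Filter Topology

attribute [-instance] CStarMatrix.instAlgebra CStarMatrix.instModule CStarMatrix.instSMul
  CStarMatrix.instMulAction CStarMatrix.instDistribMulAction

set_option linter.unusedSectionVars false

noncomputable section
namespace RC
universe u

namespace RepFVAux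

variable {A : Type u} [CStarAlgebra A] [PartialOrder A] [StarOrderedRing A]
  {φ : TState A} {H : Type u} [NormedAddCommGroup H] [InnerProductSpace ℂ H] [CompleteSpace H]
  {π : A →⋆ₐ[ℂ] (H →L[ℂ] H)} {ρ : A → (H →L[ℂ] H)} {ξ : H}

theorem adj (T : H →L[ℂ] H) (v w : H) : ⟪v, star T w⟫_ℂ = ⟪T v, w⟫_ℂ := by
  rw [ContinuousLinearMap.star_eq_adjoint, ContinuousLinearMap.adjoint_inner_right]

theorem adj' (T : H →L[ℂ] H) (v w : H) : ⟪star T v, w⟫_ℂ = ⟪v, T w⟫_ℂ := by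
  rw [ContinuousLinearMap.star_eq_adjoint, ContinuousLinearMap.adjoint_inner_left]

theorem pi_inner (a : A) (v w : H) : ⟪π a v, w⟫_ℂ = ⟪v, π (star a) w⟫_ℂ := by
  rw [map_star, adj]

theorem ip (h : IsRep φ π ρ ξ) (a b : A) : ⟪π a ξ, π b ξ⟫_ℂ = φ.φ (star a * b) := by
  rw [pi_inner, ← h.inner, map_mul]
  rfl

theorem rho_xi (h : IsRep φ π ρ ξ) (a : A) : ρ a ξ = π a ξ := by
  have := h.right 1 a
  rw [map_one, one_mul] at this
  exact this

theorem star_rho (h : IsRep φ π ρ ξ) (b : A) : star (ρ b) = ρ (star b) := by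
  rw [ContinuousLinearMap.star_eq_adjoint]
  symm
  rw [ContinuousLinearMap.eq_adjoint_iff]
  have hd : DenseRange fun a => π a ξ := h.dense
  intro x y
  refine hd.induction_on₂ (p := fun x y => ⟪ρ (star b) x, y⟫_ℂ = ⟪x, ρ b y⟫_ℂ) ?_ ?_ x y
  · exact isClosed_eq (by fun_prop) (by fun_prop)
  · intro a c
    change ⟪ρ (star b) (π a ξ), π c ξ⟫_ℂ = ⟪π a ξ, ρ b (π c ξ)⟫_ℂ
    rw [h.right, h.right, ip h, ip h, star_mul, star_star, mul_assoc, φ.trace, mul_assoc]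

theorem comm_pi (h : IsRep φ π ρ ξ) (a : A) : π a ∈ (Set.range ρ).centralizer := by
  rw [Set.mem_centralizer_iff]
  rintro _ ⟨b, rfl⟩
  have hd : DenseRange fun a => π a ξ := h.dense
  refine ContinuousLinearMap.ext fun x => ?_
  refine hd.induction_on (p := fun x => (ρ b * π a) x = (π a * ρ b) x) x ?_ ?_
  · exact isClosed_eq (by fun_prop) (by fun_prop)
  · intro c
    change ρ b (π a (π c ξ)) = π a (ρ b (π c ξ))
    have h1 : ∀ u v : A, π u (π v ξ) = π (u * v) ξ := fun u v => by rw [map_mul]; rfl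
    rw [h.right, h1, h1, h.right, mul_assoc]

theorem comm_app {x : H →L[ℂ] H} (hx : x ∈ (Set.range ρ).centralizer) (b : A) (v : H) :
    x (ρ b v) = ρ b (x v) := by
  have h1 := (Set.mem_centralizer_iff.1 hx) (ρ b) ⟨b, rfl⟩
  have h2 := DFunLike.congr_fun h1 v
  exact h2.symm

theorem sep (h : IsRep φ π ρ ξ) (x : H →L[ℂ] H) (hx : x ∈ (Set.range ρ).centralizer)
    (h0 : x ξ = 0) : x = 0 := by
  have hd : DenseRange fun a => π a ξ := h.dense
  refine ContinuousLinearMap.ext fun v => ?_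
  refine hd.induction_on (p := fun v => x v = (0 : H →L[ℂ] H) v) v ?_ ?_
  · exact isClosed_eq (by fun_prop) (by fun_prop)
  · intro a
    change x (π a ξ) = 0
    rw [← rho_xi h, comm_app hx, h0, map_zero]

theorem norm_one (h : IsRep φ π ρ ξ) : ‖ξ‖ = 1 := by
  have h1 : ⟪ξ, ξ⟫_ℂ = 1 := by
    have := h.inner 1
    rw [map_one, φ.one] at this
    exact this
  have h2 := inner_self_eq_norm_sq (𝕜 := ℂ) ξ
  rw [h1, RCLike.one_re] at h2
  have h3 : (‖ξ‖ : ℝ) ^ 2 = 1 := h2.symm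
  have h4 : 0 ≤ ‖ξ‖ := norm_nonneg _
  nlinarith

theorem swap (h : IsRep φ π ρ ξ) (x : H →L[ℂ] H) (hx : x ∈ (Set.range ρ).centralizer) (a : A) :
    ⟪ξ, x (π a ξ)⟫_ℂ = ⟪π (star a) ξ, x ξ⟫_ℂ := by
  rw [← rho_xi h, comm_app hx, ← rho_xi h, ← star_rho h, adj']

theorem norm_star (h : IsRep φ π ρ ξ) (a : A) : ‖π (star a) ξ‖ = ‖π a ξ‖ := by
  have h1 : ⟪π (star a) ξ, π (star a) ξ⟫_ℂ = ⟪π a ξ, π a ξ⟫_ℂ := by
    rw [ip h, ip h, star_star, φ.trace]
  rw [inner_self_eq_norm_sq_to_K, inner_self_eq_norm_sq_to_K] at h1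
  have h2 : ‖π (star a) ξ‖ ^ 2 = ‖π a ξ‖ ^ 2 := by exact_mod_cast h1
  have h3 := norm_nonneg (π (star a) ξ)
  have h4 := norm_nonneg (π a ξ)
  exact (pow_left_inj₀ h3 h4 (by norm_num)).1 h2

theorem ext_inner (h : IsRep φ π ρ ξ) {v w : H} (hvw : ∀ c, ⟪π c ξ, v⟫_ℂ = ⟪π c ξ, w⟫_ℂ) :
    v = w := by
  have hd : DenseRange fun a => π a ξ := h.dense
  refine ext_inner_left ℂ fun z => ?_
  refine hd.induction_on (p := fun z => ⟪z, v⟫_ℂ = ⟪z, w⟫_ℂ) z ?_ hvw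
  exact isClosed_eq (by fun_prop) (by fun_prop)

theorem trace (h : IsRep φ π ρ ξ) (x : H →L[ℂ] H) (hx : x ∈ (Set.range ρ).centralizer)
    (y : H →L[ℂ] H) (hy : y ∈ (Set.range ρ).centralizer) :
    ⟪ξ, x (y ξ)⟫_ℂ = ⟪ξ, y (x ξ)⟫_ℂ := by
  obtain ⟨s, hs1, hs2⟩ := mem_closure_iff_seq_limit.1 (h.dense (y ξ))
  choose a ha using hs1
  have ha1 : Tendsto (fun n => π (a n) ξ) atTop (𝓝 (y ξ)) := by
    simp only [ha]; exact hs2
  -- the adjoints converge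
  have hc : CauchySeq fun n => π (star (a n)) ξ := by
    have h1 : CauchySeq fun n => π (a n) ξ := ha1.cauchySeq
    rw [Metric.cauchySeq_iff] at h1 ⊢
    intro ε hε
    obtain ⟨N, hN⟩ := h1 ε hε
    refine ⟨N, fun m hm n hn => ?_⟩
    have h2 := hN m hm n hn
    rw [dist_eq_norm] at h2 ⊢
    have h3 : π (star (a m)) ξ - π (star (a n)) ξ = π (star (a m - a n)) ξ := by
      rw [star_sub, map_sub]; rfl
    have h4 : π (a m) ξ - π (a n) ξ = π (a m - a n) ξ := by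
      rw [map_sub]; rfl
    rw [h3, norm_star h, ← h4]
    exact h2
  obtain ⟨η, hη⟩ := cauchySeq_tendsto_of_complete hc
  have hη' : star y ξ = η := by
    refine ext_inner h fun c => ?_
    have h1 : ⟪π c ξ, star y ξ⟫_ℂ = ⟪y ξ, π (star c) ξ⟫_ℂ := by
      rw [adj, ← rho_xi h c, comm_app hy, ← rho_xi h (star c), ← star_rho h, adj]
    rw [h1]
    have h2 : Tendsto (fun n => ⟪π (a n) ξ, π (star c) ξ⟫_ℂ) atTop
        (𝓝 ⟪y ξ, π (star c) ξ⟫_ℂ) := ha1.inner tendsto_const_nhds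
    have h3 : Tendsto (fun n => ⟪π c ξ, π (star (a n)) ξ⟫_ℂ) atTop (𝓝 ⟪π c ξ, η⟫_ℂ) :=
      tendsto_const_nhds.inner hη
    have h4 : (fun n => ⟪π (a n) ξ, π (star c) ξ⟫_ℂ) =
        fun n => ⟪π c ξ, π (star (a n)) ξ⟫_ℂ := by
      funext n
      rw [ip h, ip h, φ.trace]
    rw [h4] at h2
    exact tendsto_nhds_unique h2 h3
  have h1 : Tendsto (fun n => ⟪ξ, x (π (a n) ξ)⟫_ℂ) atTop (𝓝 ⟪ξ, x (y ξ)⟫_ℂ) :=
    tendsto_const_nhds.inner ((x.continuous.tendsto _).comp ha1)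
  have h2 : Tendsto (fun n => ⟪π (star (a n)) ξ, x ξ⟫_ℂ) atTop (𝓝 ⟪η, x ξ⟫_ℂ) :=
    hη.inner tendsto_const_nhds
  have h3 : (fun n => ⟪ξ, x (π (a n) ξ)⟫_ℂ) = fun n => ⟪π (star (a n)) ξ, x ξ⟫_ℂ := by
    funext n
    exact swap h x hx (a n)
  rw [h3] at h1
  rw [tendsto_nhds_unique h1 h2, ← hη', adj']

end RepFVAux

/-- RepFV. -/
theorem repFVP : RepFVP.{u} := by
  intro A _ _ _ φ H _ _ _ π ρ ξ h
  refine ⟨⟨?_, RepFVAux.norm_one h, fun x hx y hy => RepFVAux.trace h x hx y hy,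
    fun x hx h0 => RepFVAux.sep h x hx h0⟩, fun a => RepFVAux.comm_pi h a⟩
  rintro _ ⟨b, rfl⟩
  exact ⟨star b, (RepFVAux.star_rho h b).symm⟩

end RC
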